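import Pool.Agent.Helper12.MA.StC

/-!
# Project MA (MP_d63854_co): module MCB
-/

set_option autoImplicit false

namespace Pool.Agent.Helper11.MA

open Pool.Agent.Helper12.MA
open Pool.Agent.Helper51.AJ (IsMinor Planar Apex ExMinor Con Tch)
open Pool.Agent.Helper12.NK (rst Kc add cnt Pcy IsFace Cof plus)

private theorem cof_symm {V : Type} {M : SimpleGraph V} {U : Set V} {a b : V} (h : Cof M U a b) :
    Cof M U b a := by
  obtain ⟨F, hF, ha, hb⟩ := h
  exact ⟨F, hF, hb, ha⟩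

private theorem card4 {V : Type} {v z s b : V} (h : ({v, z, s, b} : Set V).ncard = 4) :
    b ≠ z ∧ s ≠ z := by
  have h3 : ∀ a c d : V, ({a, c, d} : Set V).ncard ≤ 3 := by
    intro a c d
    calc ({a, c, d} : Set V).ncard ≤ ({c, d} : Set V).ncard + 1 := Set.ncard_insert_le _ _
      _ ≤ (({d} : Set V).ncard + 1) + 1 := by
          have := Set.ncard_insert_le c ({d} : Set V)
          omega
      _ = 3 := by rw [Set.ncard_singleton]
  constructor
  · intro hb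
    subst hb
    have : ({v, b, s, b} : Set V) = {v, b, s} := by
      ext t
      simp only [Set.mem_insert_iff, Set.mem_singleton_iff]
      tauto
    rw [this] at h
    have := h3 v b s
    omega
  · intro hs
    subst hs
    have : ({v, s, s, b} : Set V) = {v, s, b} := by
      ext t
      simp only [Set.mem_insert_iff, Set.mem_singleton_iff]
      tauto
    rw [this] at h
    have := h3 v s b
    omega

theorem hMCB (hBAS : StBAS) (hCRN : StCRN) (hCLS : StCLS) (hPVB : StPVB) (hCUA : StCUA)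
    (hGAB : StGAB) (hENS : StENS) (hENT : StENT) (hMCA : StMCA) : StMCB := by
  intro V _ G z v p q r r' f1 f2 f3 f4 X₀ Y₀ x y E
  have cf := E.cf
  -- basic facts on cuts
  have cutf : ∀ σ b X Y, Cut G z v p q r r' f1 f3 σ b X Y →
      (∀ t ∈ X, t ≠ z ∧ t ∉ Y) ∧ (∀ t ∈ Y, t ≠ z) ∧ b ≠ z ∧ b ≠ q ∧ b ≠ r' ∧ p ∈ X ∧ r ∈ Y := by
    intro σ b X Y hC
    have hd := hC.sep.dis
    have hcov := hC.sep.cov
    have hXQ : ∀ t ∈ X, t ∉ ({v, z, σ, b} : Set V) := by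
      intro t ht
      have : t ∈ X ∪ Y := Or.inl ht
      rw [hcov] at this
      exact this
    have hYQ : ∀ t ∈ Y, t ∉ ({v, z, σ, b} : Set V) := by
      intro t ht
      have : t ∈ X ∪ Y := Or.inr ht
      rw [hcov] at this
      exact this
    refine ⟨?_, ?_, (card4 hC.sep.card).1, ?_, ?_, hC.sep.xL, hC.rY⟩
    · intro t ht
      refine ⟨?_, fun h => Set.disjoint_left.1 hd ht h⟩
      rintro rfl
      exact hXQ _ ht (by simp)
    · rintro t ht rfl
      exact hYQ _ ht (by simp)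
    · rintro rfl
      exact hYQ _ hC.sep.yR (by simp)
    · rintro rfl
      exact hXQ _ hC.sX (by simp)
  obtain ⟨σ₁, b₁, Y₁, hC₁⟩ := E.cX
  obtain ⟨σ₂, b₂, X₂, hC₂⟩ := E.cY
  have hxz : x ≠ z := ((cutf _ _ _ _ hC₁).1 x E.xX).1
  have hyz : y ≠ z := (cutf _ _ _ _ hC₂).2.1 y E.yY
  have hyp : y ≠ p := by
    rintro rfl
    exact ((cutf _ _ _ _ hC₂).1 _ hC₂.sep.xL).2 E.yY
  have hxr : x ≠ r := by
    rintro rfl
    have h1 := (E.mX _ _ _ _ hC₂).1 E.xX
    exact ((cutf _ _ _ _ hC₂).1 _ h1).2 hC₂.rY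
  by_contra hcon
  have hx : x ∈ f1 ∨ x ∈ f4 := by
    by_contra h
    push_neg at h
    exact hcon h
  -- x not in f3
  have hx3 : x ∉ f3 := by
    intro h3
    rcases hx with h | h
    · have : x ∈ f1 ∩ f3 := ⟨h, h3⟩
      rw [cf.x13] at this
      exact hxz this
    · have : x ∈ f3 ∩ f4 := ⟨h3, h⟩
      rw [cf.x34] at this
      rcases this with h' | h'
      · exact hxz h'
      · exact E.xs h'
  have hy1 : y ∈ f1 := (hMCA V G z v p q r r' f1 f2 f3 f4 X₀ Y₀ x y E).resolve_left hx3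
  have hy3 : y ∉ f3 := by
    intro h3
    have : y ∈ f1 ∩ f3 := ⟨hy1, h3⟩
    rw [cf.x13] at this
    exact hyz this
  obtain ⟨_, _, hens3, _⟩ := hENS V G z v p q r r' f1 f2 f3 f4 X₀ Y₀ x y E
  obtain ⟨_, hcls2, hcls3, _⟩ := hCLS V G z v p q r r' f1 f2 f3 f4 cf
  -- the types
  have types : ∀ w, G.Adj v w → w ≠ z → w ≠ x → w ≠ y →
      (TH G z v w ((f1 ∪ f2) \ {z}) ∧ x ∈ f1) ∨ TP G z v p q w := by
    intro w hvw hwz hwx hwy
    rcases hENT V G z v p q r r' f1 f2 f3 f4 X₀ Y₀ x y E w hvw hwz hwx hwy with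
      h | h | h | h | h | h | h
    · exact Or.inl ⟨h.1, h.2.1⟩
    · exact absurd h.2.1 hy3
    · exfalso
      obtain ⟨F, _, hF, _, _, hyF, hall⟩ := h
      have hc := cutf _ _ _ _ hC₁
      exact hens3 y hy1 b₁ hC₁.bf hyz hyp E.yr hc.2.2.1 hc.2.2.2.1 hc.2.2.2.2.1
        (Or.inl (Or.inr E.yY)) ⟨F, hF, hyF, (hall _ _ _ _ hC₁).2⟩
    · exact Or.inr h.1
    · exact absurd h.2.1 hx3
    · exfalso
      obtain ⟨_, _, _, _, _, _, _, h3, _⟩ := h
      exact hx3 h3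
    · exfalso
      obtain ⟨σ, t, X, Y, Γ, hC, hN, _, hxΓ, _⟩ := h
      have hc := cutf _ _ _ _ hC
      have hxX : x ∈ X := (E.mX _ _ _ _ hC).1 E.xX
      have hco : Cof (dl G p q) {v}ᶜ t x :=
        (hGAB V G z v p q r r' f1 f2 f3 f4 cf σ t X Y Γ hC hN.1 x hxX).1 hxΓ
      rcases hx with h1 | h4
      · exact hens3 x h1 t hC.bf hxz E.xp hxr hc.2.2.1 hc.2.2.2.1 hc.2.2.2.2.1
          (Or.inl (Or.inl E.xX)) (cof_symm hco)
      · exact (hCRN V G z v p q r r' f1 f2 f3 f4 cf).2.2.2.2.2 t hC.bf x h4 hc.2.2.1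
          hc.2.2.2.2.1 hxz E.xs hco
  -- two different w
  have hN5 : 5 ≤ {a | G.Adj v a}.ncard := (hBAS V G cf.bh).2.2.2.1 v
  have h3 : ({z, x, y} : Set V).ncard ≤ 3 := by
    calc ({z, x, y} : Set V).ncard ≤ ({x, y} : Set V).ncard + 1 := Set.ncard_insert_le _ _
      _ ≤ (({y} : Set V).ncard + 1) + 1 := by
          have := Set.ncard_insert_le x ({y} : Set V)
          omega
      _ = 3 := by rw [Set.ncard_singleton]
  have h2 : 1 < ({a | G.Adj v a} \ {z, x, y}).ncard := by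
    have := Set.ncard_le_ncard_diff_add_ncard {a | G.Adj v a} ({z, x, y} : Set V)
      (Set.toFinite _)
    omega
  obtain ⟨w₁, w₂, hw₁, hw₂, hne⟩ := (Set.one_lt_ncard_iff (Set.toFinite _)).1 h2
  simp only [Set.mem_diff, Set.mem_setOf_eq, Set.mem_insert_iff, Set.mem_singleton_iff,
    not_or] at hw₁ hw₂
  have mix : ∀ u₁ u₂ : V, G.Adj v u₁ → G.Adj v u₂ → u₁ ≠ z → u₂ ≠ z → u₁ ≠ u₂ →
      TH G z v u₁ ((f1 ∪ f2) \ {z}) → TP G z v p q u₂ → False := by
    intro u₁ u₂ hv₁ hv₂ hz₁ hz₂ hne hT hP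
    have hu2 : u₂ ∈ (f1 ∪ f2) \ {z} := hT.2 ⟨hv₂, by
      simp only [Set.mem_insert_iff, Set.mem_singleton_iff, not_or]
      exact ⟨hz₂, hne.symm⟩⟩
    have hnp : ¬ (u₂ = p ∨ Cof (dl G p q) {v}ᶜ p u₂) := by
      intro h
      apply hcls3
      rintro a ⟨ha, haz⟩
      by_cases hau : a = u₂
      · subst hau
        exact h
      · exact hP ⟨ha, by
          simp only [Set.mem_insert_iff, Set.mem_singleton_iff, not_or]
          exact ⟨haz, hau⟩⟩
    have hu1 : u₂ ∉ f1 := fun h => hnp (Or.inr ⟨f1, cf.i1, cf.p1, h⟩)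
    have huf2 : u₂ ∈ f2 := hu2.1.resolve_left hu1
    have hur : u₂ ≠ r := by
      rintro rfl
      exact hu1 cf.r1
    have huq : u₂ ≠ q := by
      rintro rfl
      exact (hPVB V G z v p u₂ r r' f1 f2 f3 f4 cf).2 hv₂
    have huY : u₂ ∈ Y₀ := by
      have := (hCUA V G z v p q r r' f1 f2 f3 f4 cf σ₂ b₂ X₂ Y₀ hC₂).2.1.1 huf2
      rcases this with h | h
      · exact absurd h hz₂
      · exact h
    have E' : Env G z v p q r r' f1 f2 f3 f4 X₀ Y₀ x u₂ :=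
      { cf := E.cf, cX := E.cX, cY := E.cY, mX := E.mX, xX := E.xX, xp := E.xp, xs := E.xs,
        vx := E.vx, yY := huY, yq := huq, yr := hur, vy := hv₂ }
    rcases hMCA V G z v p q r r' f1 f2 f3 f4 X₀ Y₀ x u₂ E' with h | h
    · exact hx3 h
    · exact hu1 h
  obtain ⟨hv₁, hz₁, hx₁, hy₁⟩ := hw₁
  obtain ⟨hv₂, hz₂, hx₂, hy₂⟩ := hw₂
  rcases types w₁ hv₁ hz₁ hx₁ hy₁ with hA | hA <;> rcases types w₂ hv₂ hz₂ hx₂ hy₂ with hB | hB
  · apply hcls2 _ hA.1.1
    rintro a ⟨ha, haz⟩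
    by_cases hau : a = w₁
    · subst hau
      exact hB.1.2 ⟨ha, by
        simp only [Set.mem_insert_iff, Set.mem_singleton_iff, not_or]
        exact ⟨haz, hne⟩⟩
    · exact hA.1.2 ⟨ha, by
        simp only [Set.mem_insert_iff, Set.mem_singleton_iff, not_or]
        exact ⟨haz, hau⟩⟩
  · exact mix w₁ w₂ hv₁ hv₂ hz₁ hz₂ hne hA.1 hB
  · exact mix w₂ w₁ hv₂ hv₁ hz₂ hz₁ hne.symm hB.1 hA
  · apply hcls3
    rintro a ⟨ha, haz⟩
    by_cases hau : a = w₁
    · subst hau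
      exact hB ⟨ha, by
        simp only [Set.mem_insert_iff, Set.mem_singleton_iff, not_or]
        exact ⟨haz, hne⟩⟩
    · exact hA ⟨ha, by
        simp only [Set.mem_insert_iff, Set.mem_singleton_iff, not_or]
        exact ⟨haz, hau⟩⟩

end Pool.Agent.Helper11.MA
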